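import Mathlib
import Pool.Agent.LC76.Bad

set_option autoImplicit false

namespace Pool.Agent.Results.MP_76eee7_pr.PositiveProbability

open Pool.Agent.H624C

/-- The edges of the complete graph on `Fin n`. -/
abbrev Edges (n : ℕ) := (⊤ : SimpleGraph (Fin n)).edgeSet

/-- An ordering of the edges of the complete graph on `Fin n`: the random graph process is a
uniformly random such ordering. -/
abbrev Ordering (n : ℕ) := Fin (Nat.card (Edges n)) ≃ Edges n

/-- The stage `G_m` of the process: the graph of the first `m` edges. -/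
def stage {n : ℕ} (σ : Ordering n) (m : ℕ) : SimpleGraph (Fin n) :=
  SimpleGraph.fromEdgeSet {e : Sym2 (Fin n) | ∃ i : Fin (Nat.card (Edges n)), (i : ℕ) < m ∧ (σ i).val = e}

/-- `k`-list-colourability (`k`-choosability). -/
def Choosable {V : Type} (G : SimpleGraph V) (k : ℕ) : Prop :=
  ∀ L : V → Finset ℕ, (∀ v, (L v).card = k) →
    ∃ f : V → ℕ, (∀ v, f v ∈ L v) ∧ ∀ u v, G.Adj u v → f u ≠ f v

/-- `τ` is the first stage at which the process is not `k`-list-colourable. -/
def IsHittingTime {n : ℕ} (σ : Ordering n) (k τ : ℕ) : Prop :=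
  ¬ Choosable (stage σ τ) k ∧ ∀ m < τ, Choosable (stage σ m) k

theorem stage_mono {n : ℕ} (σ : Ordering n) {m m' : ℕ} (h : m ≤ m') : stage σ m ≤ stage σ m' := by
  unfold stage
  apply SimpleGraph.fromEdgeSet_mono
  rintro e ⟨i, hi, he⟩
  exact ⟨i, by omega, he⟩

theorem of_bad {n : ℕ} (σ : Ordering n) (h : ∃ m : ℕ, BG (Stage σ m)) :
    ∃ τ : ℕ, IsHittingTime σ 3 τ ∧ (stage σ τ).Colorable 3 := by
  classical
  obtain ⟨m, hcol, L, hL, hno⟩ := h
  have hex : ∃ m, ¬ Choosable (stage σ m) 3 := ⟨m, fun hc => hno (hc L hL)⟩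
  have hle : Nat.find hex ≤ m := Nat.find_min' hex (fun hc => hno (hc L hL))
  refine ⟨Nat.find hex, ⟨Nat.find_spec hex, fun m' hm' => ?_⟩, ?_⟩
  · by_contra hc
    exact Nat.find_min hex hm' hc
  · exact hcol.mono_left (stage_mono σ hle)

/-- For `k = 3` the probability that the random graph process is still 3-colourable at the moment
`τ_3` at which it stops being 3-list-colourable is bounded away from `0` for all large `n`. -/
theorem result :
    ∃ γ : ℝ, 0 < γ ∧ ∃ n₀ : ℕ, ∀ n : ℕ, n₀ ≤ n →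
      γ ≤ (Nat.card {σ : Ordering n // ∃ τ : ℕ, IsHittingTime σ 3 τ ∧
          (stage σ τ).Colorable 3} : ℝ) / (Nat.card (Ordering n) : ℝ) := by
  obtain ⟨γ, hγ, N0, h⟩ := Pool.Agent.LC76.label_bad_all
  refine ⟨γ, hγ, N0, fun n hn => ?_⟩
  obtain ⟨M, hM, hbad⟩ := h n hn
  have h2 := TR_thm n M hM (fun H => BG H)
  have h3 : γ ≤ (Nat.card {σ : Ordering n // ∃ m : ℕ, BG (Stage σ m)} : ℝ) /
      (Nat.card (Ordering n) : ℝ) := hbad.trans h2
  refine h3.trans ?_
  have hfin : Finite (Ordering n) := inferInstance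
  gcongr
  exact Nat.card_le_card_of_injective
    (fun σ : {σ : Ordering n // ∃ m : ℕ, BG (Stage σ m)} =>
      (⟨σ.1, of_bad σ.1 σ.2⟩ : {σ : Ordering n // ∃ τ : ℕ, IsHittingTime σ 3 τ ∧
          (stage σ τ).Colorable 3}))
    (fun a b hab => Subtype.ext (congrArg (fun x => x.1) hab))

end Pool.Agent.Results.MP_76eee7_pr.PositiveProbability
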